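import Pool.Agent.Q260.DJ.Stm
import Pool.Agent.H24R2.JP.RH2
import Pool.Agent.H24R2.JP.B1
import Pool.Agent.H24R2.JP.Gam
import Pool.Agent.H24R2.JP.Mom

set_option autoImplicit false

/-!
# Project DJ, job JN: Jensen polynomials of one shift
-/

namespace Pool.Agent.Q52.DJ

open Complex Filter Topology Polynomial
open Pool.Agent.H24R2.JP
open Pool.Agent.Q260.DJ (S_JN)

lemma diff_iter (hd : Differentiable ℂ FF) (n : ℕ) : Differentiable ℂ (iteratedDeriv n FF) := by
  induction n with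
  | zero => rwa [iteratedDeriv_zero]
  | succ n ih =>
    rw [iteratedDeriv_succ]
    exact ih.deriv

lemma iter_iter (n k : ℕ) : iteratedDeriv k (iteratedDeriv n FF) = iteratedDeriv (n + k) FF := by
  rw [iteratedDeriv_eq_iterate, iteratedDeriv_eq_iterate, iteratedDeriv_eq_iterate,
    ← Function.iterate_add_apply, add_comm]

lemma summ (h1 : SB1) (n : ℕ) (x : ℂ) :
    HasSum (fun k : ℕ => ((gam (n + k) : ℝ) : ℂ) / (k.factorial : ℂ) * x ^ k)
      (iteratedDeriv n FF x) := by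
  obtain ⟨hd, -, -, hi⟩ := h1
  have h2 := Complex.hasSum_taylorSeries_of_entire (diff_iter hd n) 0 x
  have h3 : (fun k : ℕ => ((gam (n + k) : ℝ) : ℂ) / (k.factorial : ℂ) * x ^ k) =
      (fun k : ℕ => (k.factorial : ℂ)⁻¹ • (x - 0) ^ k • iteratedDeriv k (iteratedDeriv n FF) 0) := by
    funext k
    rw [iter_iter, hi (n + k), sub_zero, smul_eq_mul, smul_eq_mul]
    ring
  rw [h3]; exact h2

lemma aeval_jensen (d n : ℕ) (x : ℂ) : aeval x (jensen d n) =
    ∑ j ∈ Finset.range (d + 1), ((d.choose j : ℕ) : ℂ) * ((gam (n + j) : ℝ) : ℂ) * x ^ j := by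
  unfold jensen
  rw [map_sum]
  apply Finset.sum_congr rfl
  intro j _
  simp

lemma tend (h1 : SB1) (n : ℕ) (x : ℂ) :
    Tendsto (fun d : ℕ => aeval (x / (d : ℂ)) (jensen d n)) atTop (𝓝 (iteratedDeriv n FF x)) := by
  have hs := summ h1 n x
  have hsn : Summable (fun k : ℕ => ‖((gam (n + k) : ℝ) : ℂ) / (k.factorial : ℂ) * x ^ k‖) :=
    hs.summable.norm
  have h2 : Tendsto (fun d : ℕ => ∑' j : ℕ, (((((d.choose j : ℕ) : ℝ) / (d : ℝ) ^ j : ℝ)) : ℂ) *
      (((gam (n + j) : ℝ) : ℂ) * x ^ j)) atTop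
      (𝓝 (∑' j : ℕ, ((gam (n + j) : ℝ) : ℂ) / (j.factorial : ℂ) * x ^ j)) := by
    apply tendsto_tsum_of_dominated_convergence hsn
    · intro j
      have h3 := (rh2_choose j)
      have h4 : Tendsto (fun d : ℕ => ((((d.choose j : ℕ) : ℝ) / (d : ℝ) ^ j : ℝ) : ℂ)) atTop
          (𝓝 ((1 / (j.factorial : ℝ) : ℝ) : ℂ)) := (Complex.continuous_ofReal.tendsto _).comp h3
      have h5 := h4.mul_const (((gam (n + j) : ℝ) : ℂ) * x ^ j)
      have h6 : ((1 / (j.factorial : ℝ) : ℝ) : ℂ) * (((gam (n + j) : ℝ) : ℂ) * x ^ j) =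
          ((gam (n + j) : ℝ) : ℂ) / (j.factorial : ℂ) * x ^ j := by
        push_cast; ring
      rw [← h6]; exact h5
    · filter_upwards with d
      intro j
      have h7 : (0 : ℝ) ≤ ((d.choose j : ℕ) : ℝ) / (d : ℝ) ^ j := by positivity
      rw [norm_mul, Complex.norm_real, Real.norm_of_nonneg h7]
      have h8 : ‖((gam (n + j) : ℝ) : ℂ) / (j.factorial : ℂ) * x ^ j‖ =
          1 / (j.factorial : ℝ) * ‖((gam (n + j) : ℝ) : ℂ) * x ^ j‖ := by
        rw [div_mul_eq_mul_div, norm_div, Complex.norm_natCast]; ring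
      rw [h8]
      exact mul_le_mul_of_nonneg_right (rh2_choose_le d j) (norm_nonneg _)
  rw [hs.tsum_eq] at h2
  refine h2.congr' ?_
  filter_upwards [eventually_ge_atTop 1] with d hd
  have hd' : (d : ℂ) ≠ 0 := by exact_mod_cast (by omega : d ≠ 0)
  rw [aeval_jensen, tsum_eq_sum (s := Finset.range (d + 1))]
  · apply Finset.sum_congr rfl
    intro j _
    push_cast
    rw [div_pow]
    field_simp
  · intro j hj
    have hj' : d < j := by simpa using hj
    rw [Nat.choose_eq_zero_of_lt hj']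
    simp

lemma real_zero (h1 : SB1) (hg : ∀ k, 0 < gam k) (n : ℕ)
    (hJ : ∀ d : ℕ, Hyperbolic (jensen d n)) (w : ℂ)
    (hw : iteratedDeriv n FF w = 0) : w.im = 0 := by
  by_contra him
  obtain ⟨N, hN⟩ := exists_nat_ge (4 * ‖w‖ ^ 2 / |w.im|)
  have hev : ∀ᶠ d : ℕ in atTop, ‖aeval ((0 : ℂ) / (d : ℂ)) (jensen d n)‖ ^ (N + 1) ≤
      ‖aeval (w / (d : ℂ)) (jensen d n)‖ * ‖aeval ((1 : ℂ) / (d : ℂ)) (jensen d n)‖ ^ N := by
    filter_upwards [eventually_ge_atTop 1] with d hd
    have hdr : (0 : ℝ) < d := by exact_mod_cast hd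
    have hdc : (d : ℂ) ≠ 0 := by exact_mod_cast (by omega : d ≠ 0)
    have hcoef : ∀ j, (jensen d n).coeff j = ((d.choose j : ℕ) : ℝ) * gam (n + j) := by
      intro j
      unfold jensen
      rw [Polynomial.finsetSum_coeff]
      simp only [Polynomial.coeff_C_mul, Polynomial.coeff_X_pow, mul_ite, mul_one, mul_zero]
      rw [Finset.sum_ite_eq]
      split_ifs with hj
      · rfl
      · have hj' : d < j := by simpa using hj
        rw [Nat.choose_eq_zero_of_lt hj']; simp
    set P : ℝ[X] := (jensen d n).comp (Polynomial.C (1 / (d : ℝ)) * X) with hP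
    have hval : ∀ z : ℂ, aeval z P = aeval (z / (d : ℂ)) (jensen d n) := by
      intro z
      rw [hP, Polynomial.aeval_comp]
      congr 2
      simp
      ring
    have hPc : ∀ j, P.coeff j = (jensen d n).coeff j * (1 / (d : ℝ)) ^ j := by
      intro j
      rw [hP, Polynomial.comp_C_mul_X_coeff]
    have h2 := rh2_poly w N him hN P
      (by rw [hPc, hcoef]; simpa using hg n)
      (fun j => by
        rw [hPc, hcoef]
        exact mul_nonneg (mul_nonneg (by positivity) (hg _).le) (by positivity))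
      (by
        intro z hz
        rw [hval] at hz
        have h3 := hJ d _ hz
        rw [Complex.div_natCast_im] at h3
        rcases div_eq_zero_iff.mp h3 with h | h
        · exact h
        · exact absurd h hdr.ne')
    rwa [hval, hval, hval] at h2
  have hl0 := ((tend h1 n 0).norm).pow (N + 1)
  have hlw := ((tend h1 n w).norm).mul (((tend h1 n 1).norm).pow N)
  have hle := le_of_tendsto_of_tendsto hl0 hlw hev
  rw [hw, norm_zero, zero_mul] at hle
  have hFF0 : iteratedDeriv n FF 0 = ((gam n : ℝ) : ℂ) := h1.2.2.2 n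
  have hpos : 0 < ‖iteratedDeriv n FF 0‖ ^ (N + 1) := by
    rw [hFF0, Complex.norm_real, Real.norm_of_nonneg (hg n).le]
    exact pow_pos (hg n) _
  linarith

theorem t_JN : S_JN := by
  intro n hJ x hx
  have h1 : SB1 := b1
  have hg : ∀ k, 0 < gam k := (gamS mom).1
  have him := real_zero h1 hg n hJ x hx
  refine ⟨him, ?_⟩
  by_contra hcon
  rw [not_lt] at hcon
  have hxr : x = ((x.re : ℝ) : ℂ) := by
    apply Complex.ext
    · simp
    · simp [him]
  have hsum := summ h1 n x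
  rw [hx, hxr] at hsum
  have hre := Complex.hasSum_re hsum
  have hpos : ∀ k : ℕ, 0 ≤ (((gam (n + k) : ℝ) : ℂ) / (k.factorial : ℂ) *
      ((x.re : ℝ) : ℂ) ^ k).re := by
    intro k
    have h9 : ((gam (n + k) : ℝ) : ℂ) / (k.factorial : ℂ) * ((x.re : ℝ) : ℂ) ^ k =
        ((gam (n + k) / (k.factorial : ℝ) * x.re ^ k : ℝ) : ℂ) := by push_cast; ring
    rw [h9, Complex.ofReal_re]
    have := hg (n + k)
    positivity
  have h0 : (((gam (n + 0) : ℝ) : ℂ) / ((Nat.factorial 0 : ℕ) : ℂ) *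
      ((x.re : ℝ) : ℂ) ^ 0).re = gam n := by
    simp
  have h10 := le_hasSum hre 0 (fun k _ => hpos k)
  rw [h0] at h10
  have := hg n
  simp at h10
  linarith

end Pool.Agent.Q52.DJ
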